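import Pool.Agent.Lib.OD.QA
import Pool.Agent.Lib.OD.QC
import Pool.Agent.Lib.OD.QB
import Pool.Agent.Lib.OD.One
import Pool.Agent.Lib.OD.Psi
import Pool.Agent.Lib.OD.Lip
import Pool.Agent.Lib.OD.TA
import Pool.Agent.Lib.OD.TB
import Pool.Agent.Lib.OD.Cr
import Pool.Agent.Lib.OD.Int
import Pool.Agent.Lib.OD.HA
import Pool.Agent.Lib.OD.HB
import Pool.Agent.Lib.OD.AvA
import Pool.Agent.Lib.OD.AvB
import Pool.Agent.Lib.OD.LA
import Pool.Agent.Lib.OD.Cos
import Pool.Agent.Lib.OD.LB
import Pool.Agent.Lib.OD.Far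
import Pool.Agent.Lib.OD.Fin
import Pool.Agent.Lib.OD.RA
import Pool.Agent.Lib.OD.RB
import Pool.Agent.Lib.OD.RC
import Pool.Agent.Lib.OD.RD
import Pool.Agent.Lib.OD.Main

/-!
# Curves that meet every line through the unit disc have total length at least `π + 1/250`

The proof is written out in `Pool/Agent/Lib/OD/TEXT.md`.
-/

set_option autoImplicit false

namespace Pool.Agent.Results.MP_721d21_gt.LowerBound

open Pool.Agent.OD

/-- Let `γ k` (`k ∈ ℕ`) be continuous curves in the Euclidean plane, parametrised by `[0,1]`, such that every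
line that contains a point of the closed unit disc contains a point of one of the curves.  Then the sum of
the lengths (total variations) of the curves is at least `π + 1/250`. -/
theorem result (γ : ℕ → ℝ → EuclideanSpace ℝ (Fin 2))
    (hγ : ∀ k, ContinuousOn (γ k) (Set.Icc 0 1))
    (hD : ∀ l : AffineSubspace ℝ (EuclideanSpace ℝ (Fin 2)), Module.finrank ℝ l.direction = 1 →
      (∃ x ∈ l, ‖x‖ ≤ 1) → ∃ k, ∃ t ∈ Set.Icc (0 : ℝ) 1, γ k t ∈ l) :
    ENNReal.ofReal (Real.pi + 1 / 250) ≤ ∑' k, eVariationOn (γ k) (Set.Icc 0 1) := by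
  have hTA := pTA pLip
  have hTB := pTB hTA pLip
  have hHA := pHA hTB pCr pQA pOne pLip pInt
  have hHB := pHB hHA (pQC pQB) pOne pLip pInt
  have hFin := pFin (pAvA hHB pInt) (pAvB pInt) (pLA pPsi pOne) (pLB pCos pInt pOne)
    (pFar pOne pInt) pOne pInt
  exact pMain (pRD hFin (pRB pRA) pRC) γ hγ hD

end Pool.Agent.Results.MP_721d21_gt.LowerBound
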