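import Pool.Agent.Lib.OT.All
import Pool.Agent.Lib.OT.Cert

/-!
# Three curves that meet every line through the unit disc have total length at least `47 π / 40`

For every direction `θ` and a curve `γ`, the variation of the projection of `γ` is at least
`2 w(θ) - |⟨v, u_θ⟩|`, with the width `w` of `γ` and the vector `v` from the first to the last point.  For five
directions at distance `π / 5` the sum of the terms `|⟨v, u_θ⟩|` is at most `1 + √5` times the width in one of them.
The resulting inequality for the widths of the three curves is linear in the `30` support values; it is proved by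
a tree of `25568` certificates with coefficients in `ℚ(√5)` (`Pool/Agent/Lib/OT/T00.lean` to `T13.lean`), checked by a
verified checker (`Chk.lean`, `Snd.lean`, `Snd2.lean`, `Swp.lean`, `Cert.lean`).  Averaging over all rotations gives
the theorem.
-/

set_option autoImplicit false

namespace Pool.Agent.Results.MP_721d21_gt.ThreeCurves

/-- Let `γ₁`, `γ₂`, `γ₃` be continuous curves in the Euclidean plane, parametrised by `[0,1]`, such that every line
that contains a point of the closed unit disc contains a point of one of them.  Then the sum of the lengths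
(total variations) of the three curves is at least `47 π / 40 = 3.691...`. -/
theorem result (γ₁ γ₂ γ₃ : ℝ → EuclideanSpace ℝ (Fin 2))
    (h₁ : ContinuousOn γ₁ (Set.Icc 0 1)) (h₂ : ContinuousOn γ₂ (Set.Icc 0 1)) (h₃ : ContinuousOn γ₃ (Set.Icc 0 1))
    (hD : ∀ l : AffineSubspace ℝ (EuclideanSpace ℝ (Fin 2)), Module.finrank ℝ l.direction = 1 →
      (∃ x ∈ l, ‖x‖ ≤ 1) → ∃ t ∈ Set.Icc (0 : ℝ) 1, γ₁ t ∈ l ∨ γ₂ t ∈ l ∨ γ₃ t ∈ l) :
    ENNReal.ofReal (47 * Real.pi / 40) ≤
      eVariationOn γ₁ (Set.Icc 0 1) + eVariationOn γ₂ (Set.Icc 0 1) + eVariationOn γ₃ (Set.Icc 0 1) :=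
  Pool.Agent.OT3.main3 Pool.Agent.OT.tCert γ₁ γ₂ γ₃ h₁ h₂ h₃ hD

end Pool.Agent.Results.MP_721d21_gt.ThreeCurves
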