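import Pool.Agent.Lib.OQ.Main
import Pool.Agent.Lib.OQ.Var

/-!
# Two curves that meet every line through the unit disc have total length at least `π (1 + √3 / 6)`

For every direction `θ` and a curve `γ`, the variation of the projection of `γ` is at least
`2 w(θ) - |⟨v, u_θ⟩|`, with the width `w` of `γ` and the vector `v` from the first to the last point.  For six
directions at distance `π / 6` the sum of the terms `|⟨v, u_θ⟩|` is at most twice the sum of two consecutive widths.
The resulting inequality for the widths of the two curves is linear in the `24` support values; it is proved by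
`610` certificates with coefficients in `ℚ(√3)` (`Pool/Agent/Lib/OQ/T0.lean` to `T5.lean`), checked by a verified
checker (`Chk.lean`, `Snd.lean`).  Averaging over all rotations gives the theorem.
-/

set_option autoImplicit false

namespace Pool.Agent.Results.MP_721d21_gt.TwoCurves

open Pool.Agent.OQ

/-- Let `γ₁`, `γ₂` be continuous curves in the Euclidean plane, parametrised by `[0,1]`, such that every line
that contains a point of the closed unit disc contains a point of one of them.  Then the sum of the lengths
(total variations) of `γ₁` and `γ₂` is at least `π (1 + √3 / 6) = 4.048...`. -/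
theorem result (γ₁ γ₂ : ℝ → EuclideanSpace ℝ (Fin 2))
    (h₁ : ContinuousOn γ₁ (Set.Icc 0 1)) (h₂ : ContinuousOn γ₂ (Set.Icc 0 1))
    (hD : ∀ l : AffineSubspace ℝ (EuclideanSpace ℝ (Fin 2)), Module.finrank ℝ l.direction = 1 →
      (∃ x ∈ l, ‖x‖ ≤ 1) → ∃ t ∈ Set.Icc (0 : ℝ) 1, γ₁ t ∈ l ∨ γ₂ t ∈ l) :
    ENNReal.ofReal (Real.pi * (1 + √3 / 6)) ≤
      eVariationOn γ₁ (Set.Icc 0 1) + eVariationOn γ₂ (Set.Icc 0 1) :=
  mainP varP γ₁ γ₂ h₁ h₂ hD

end Pool.Agent.Results.MP_721d21_gt.TwoCurves
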