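import Pool.Agent.Lib.OU.Fin

/-!
# MP_721d21_gt: three curves of total length at most `4.79985` meet every line through the disc

The closed unit disc is `{x : ‖x‖ ≤ 1}` in the plane `EuclideanSpace ℝ (Fin 2)`, a line is an affine subspace with a
one-dimensional direction, and the length of the curve `γ k` (on `[0, 1]`) is its total variation.

The first curve is an arc of the unit circle (`y = -cos s, x = sin s`, `|s| ≤ σ`, `sin σ = 651/701`) with its two
tangent segments of lengths `379/709` and `262/381` at the ends, with the ends `A` and `B`. The second curve is a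
segment from `S₁ = (-1/2, 271/261)` to a point of the segment `A B`, the third curve is a segment from
`S₂ = (275/653, 635/653)` to a point of the segment `B S₁`. Four linear inequalities and the arc show that a line which
meets the disc and has the first curve on one side does not have both `S₁` and `S₂` on the same side (`Lib/OU/Cone.lean`,
`Lib/OU/Geo.lean`); the lengths are computed in `Lib/OU/Fin.lean`.
-/

set_option autoImplicit false

open Set

namespace Pool.Agent.Results.MP_721d21_gt.UpperBound

theorem result : ∃ γ : Fin 3 → ℝ → EuclideanSpace ℝ (Fin 2),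
    (∀ k, ContinuousOn (γ k) (Icc 0 1)) ∧
    (∀ l : AffineSubspace ℝ (EuclideanSpace ℝ (Fin 2)), Module.finrank ℝ l.direction = 1 →
      (∃ x ∈ l, ‖x‖ ≤ 1) → ∃ k, ∃ t ∈ Icc (0 : ℝ) 1, γ k t ∈ l) ∧
    ∑ k, eVariationOn (γ k) (Icc 0 1) ≤ ENNReal.ofReal (479985 / 100000) :=
  Pool.Agent.OU.upper

end Pool.Agent.Results.MP_721d21_gt.UpperBound
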